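import Mathlib
import Pool.Agent.X202.ThmA

/-!
# MP_b3b95b_an: bounded extensions of biorthogonal functionals with dense sum

Let `x` be a minimal sequence in a separable Banach space `E` over `ℝ` or `ℂ` whose associated
functionals `φ n` on the closed linear span of `x` are uniformly bounded (in particular, let `x` be
a strictly bounded minimal sequence).  Then there are uniformly bounded functionals `f n` on the
whole of `E` extending the `φ n` such that `[x n] + [f n]_⊥` is dense in `E`.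
-/

set_option autoImplicit false

namespace Pool.Agent.Results.MP_b3b95b_an.BoundedExtensions

/-- The closed linear span `[x n]` of a sequence. -/
def clSpan (𝕜 : Type*) [RCLike 𝕜] {E : Type*} [NormedAddCommGroup E] [NormedSpace 𝕜 E]
    (x : ℕ → E) : Submodule 𝕜 E :=
  (Submodule.span 𝕜 (Set.range x)).topologicalClosure

theorem mem_clSpan (𝕜 : Type*) [RCLike 𝕜] {E : Type*} [NormedAddCommGroup E] [NormedSpace 𝕜 E]
    (x : ℕ → E) (n : ℕ) : x n ∈ clSpan 𝕜 x :=
  Submodule.le_topologicalClosure _ (Submodule.subset_span ⟨n, rfl⟩)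

/-- `x` is a minimal sequence with associated functionals `φ n ∈ [x n]^*`: `φ i (x j) = δ_ij`. -/
def IsMinimalWith {𝕜 : Type*} [RCLike 𝕜] {E : Type*} [NormedAddCommGroup E] [NormedSpace 𝕜 E]
    (x : ℕ → E) (φ : ℕ → StrongDual 𝕜 (clSpan 𝕜 x)) : Prop :=
  ∀ i j : ℕ, φ i ⟨x j, mem_clSpan 𝕜 x j⟩ = if i = j then 1 else 0

/-- The annihilator `[f n]_⊥ = {v ∈ E : f n v = 0 for all n}`. -/
def preAnnihilator {𝕜 : Type*} [RCLike 𝕜] {E : Type*} [NormedAddCommGroup E] [NormedSpace 𝕜 E]
    (f : ℕ → StrongDual 𝕜 E) : Submodule 𝕜 E where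
  carrier := {v | ∀ n, f n v = 0}
  add_mem' := fun {a b} ha hb n => by
    simp only [Set.mem_ofPred_eq] at ha hb
    rw [map_add, ha n, hb n, add_zero]
  zero_mem' := fun n => map_zero _
  smul_mem' := fun c v hv n => by
    simp only [Set.mem_ofPred_eq] at hv
    rw [map_smul, hv n, smul_zero]

/-- Affirmative answer to Q1, for all separable Banach spaces over `ℝ` or `ℂ`: if `x` is minimal
with associated functionals `φ n`, `‖x n‖ ≤ C` and `‖φ n‖ ≤ D`, there are uniformly bounded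
`f n ∈ E^*` extending the `φ n` with `[x n] + [f n]_⊥` dense in `E`. -/
theorem result {𝕜 : Type*} [RCLike 𝕜] {E : Type*} [NormedAddCommGroup E] [NormedSpace 𝕜 E]
    [CompleteSpace E] [TopologicalSpace.SeparableSpace E] (x : ℕ → E)
    (φ : ℕ → StrongDual 𝕜 (clSpan 𝕜 x)) (hφ : IsMinimalWith x φ)
    (_hx : ∃ C : ℝ, ∀ n, ‖x n‖ ≤ C) (hb : ∃ D : ℝ, ∀ n, ‖φ n‖ ≤ D) :
    ∃ f : ℕ → StrongDual 𝕜 E,
      (∀ (n : ℕ) (v : clSpan 𝕜 x), f n (v : E) = φ n v) ∧
      (∃ D : ℝ, ∀ n, ‖f n‖ ≤ D) ∧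
      Dense ((clSpan 𝕜 x ⊔ preAnnihilator f : Submodule 𝕜 E) : Set E) := by
  obtain ⟨D, hD⟩ := hb
  -- Hahn-Banach extensions
  have hHB : ∀ n, ∃ g : StrongDual 𝕜 E, (∀ v : clSpan 𝕜 x, g v = φ n v) ∧ ‖g‖ = ‖φ n‖ :=
    fun n => exists_extension_norm_eq (clSpan 𝕜 x) (φ n)
  choose g hg hgn using hHB
  have hgb : ∀ i j, g i (x j) = if i = j then 1 else 0 := by
    intro i j
    rw [← hφ i j]
    exact hg i ⟨x j, mem_clSpan 𝕜 x j⟩
  obtain ⟨F, D', z, h, h1, h2, h3, -, -, -, h7⟩ :=
    Pool.Agent.X202.thmA x g hgb (fun n => (hgn n).le.trans (hD n))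
  refine ⟨F, ?_, ⟨D', h1⟩, ?_⟩
  · intro n v
    -- the set where `F n` and `g n` agree is closed and contains the span of `x`
    have hcl : IsClosed {w : E | F n w = g n w} := isClosed_eq (F n).continuous (g n).continuous
    have hv : (v : E) ∈ closure ((Submodule.span 𝕜 (Set.range x) : Submodule 𝕜 E) : Set E) := v.2
    have : (v : E) ∈ {w : E | F n w = g n w} := by
      refine closure_minimal (fun w hw => ?_) hcl hv
      change F n w = g n w
      induction hw using Submodule.span_induction with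
      | mem w hw => obtain ⟨k, rfl⟩ := hw; rw [h2, hgb]
      | zero => rw [map_zero, map_zero]
      | add a b _ _ ha hb => rw [map_add, map_add, ha, hb]
      | smul c a _ ha => rw [map_smul, map_smul, ha]
    exact this.trans (hg n v)
  · rw [← Submodule.dense_iff_topologicalClosure_eq_top] at h7
    refine h7.mono ?_
    refine (Submodule.span_le.2 ?_ : Submodule.span 𝕜 (Set.range x ∪ Set.range z) ≤
      clSpan 𝕜 x ⊔ preAnnihilator F)
    rintro _ (⟨n, rfl⟩ | ⟨j, rfl⟩)
    · exact Submodule.mem_sup_left (mem_clSpan 𝕜 x n)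
    · exact Submodule.mem_sup_right (fun i => h3 i j)

end Pool.Agent.Results.MP_b3b95b_an.BoundedExtensions
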